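import Pool.Agent.T6.H55.ST.Asm3
import Pool.Agent.T6.H55.ST.Jac
import Pool.Agent.T6.H55.ST.Aid
import Pool.Agent.T6.H55.ST.Gen
import Pool.Agent.T6.H55.ST.Trv
import Pool.Agent.T6.H55.ST.Fix
import Pool.Agent.T6.H55.ST.Pol
import Pool.Agent.T6.H55.ST.Eig
import Pool.Agent.T6.H55.ST.Prt
import Pool.Agent.T6.H55.ST.Brk
import Pool.Agent.T6.H55.ST.Kil
import Pool.Agent.T6.H55.ST.Alg
import Pool.Agent.T6.H55.ST.Ucn
import Pool.Agent.T6.H55.ST.Rec
import Pool.Agent.T6.H55.ST.Mau
import Pool.Agent.T6.H55.ST.Ops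
import Pool.Agent.T6.H55.ST.Uni
import Pool.Agent.T6.H55.ST.Ads
import Pool.Agent.T6.H55.ST.Adc
import Pool.Agent.T6.H55.ST.Coo
import Pool.Agent.T6.H55.ST.Kit
import Pool.Agent.T6.H55.ST.Smo
import Pool.Agent.T6.H55.ST.Cex

/-!
# MP_7614c4_an: parabolically induced actions restricted to lattices determine the flow

`G` is a connected simple real Lie group (of any real rank), `Γ` a lattice, `Q` a proper parabolic
subgroup, `φ : Q → ℝ` a continuous homomorphism.  Conjugacy of the `Γ`-actions on `(G × M) / Q` and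
`(G × M') / Q` induced by smooth flows implies conjugacy of the flows, for all compact manifolds
`M`, `M'` and all flows, if and only if `φ` has dense range.
-/

set_option autoImplicit false

open scoped Manifold ContDiff Topology
open Pool.Agent.T6.H55.ST

namespace Pool.Agent.Results.MP_7614c4_an.FlowsFromLattices

theorem result (E : Type) [NormedAddCommGroup E] [NormedSpace ℝ E] [FiniteDimensional ℝ E]
    (G : Type) [TopologicalSpace G] [ChartedSpace E G] [Group G] [LieGroup 𝓘(ℝ, E) ∞ G]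
    [T2Space G] [SecondCountableTopology G] [ConnectedSpace G] (hG : SimpleLie E G)
    (Γ : Subgroup G) (hΓ : Pool.Agent.T6.H55.ST.Lattice Γ) (Q : Subgroup G) (hQ : Parabolic E Q) (hQ' : Q ≠ ⊤)
    (φ : Q →* Multiplicative ℝ) (hφ : Continuous φ) :
    (∀ (F : Type) [NormedAddCommGroup F] [NormedSpace ℝ F] [FiniteDimensional ℝ F]
      (M : Type) [TopologicalSpace M] [ChartedSpace F M] [IsManifold 𝓘(ℝ, F) ∞ M]
      [CompactSpace M] [T2Space M]
      (F' : Type) [NormedAddCommGroup F'] [NormedSpace ℝ F'] [FiniteDimensional ℝ F']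
      (M' : Type) [TopologicalSpace M'] [ChartedSpace F' M'] [IsManifold 𝓘(ℝ, F') ∞ M']
      [CompactSpace M'] [T2Space M'] (ρ : SFlow F M) (ρ' : SFlow F' M'),
      LatticeConj E Γ φ ρ ρ' → FlowConj ρ ρ') ↔
    Dense (Set.range fun q : Q => (Multiplicative.toAdd (φ q) : ℝ)) := by
  have : IsTopologicalGroup G := topologicalGroup_of_lieGroup 𝓘(ℝ, E) ∞
  have hJ := jac E G
  have hE := eigst E
  have hP := prt E
  have hB := brk E hE hP
  have hK := kil E hE hP hB
  have hL := alg E hE hP hB hK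
  have hA := aid E G
  have hT := trv E G hJ hE hP hB (ucn G)
  have hF := Pool.Agent.T6.H55.ST.Fix.fix E G hJ hE hP hB hK hT hL
  have hGen := gen E G hJ hA hE hP hB
  have hAds := ads E G
  have hUni := uni E G
  have hAdc := adc E G hAds hUni
  have hCoo := coo E G
  have hKit := kit E G (Pool.Agent.T6.H55.ST.Ops.ops E G) hUni hAds hAdc hCoo
  have hSmo := smo E G hKit hCoo (jac E G) hE hP hB
  have hM : Asm.Mods E G :=
    ⟨hKit, hJ, hE, hP, hB, hF, hGen, pol E, Pool.Agent.T6.H55.ST.Rec.rec' G, Pool.Agent.T6.H55.ST.Mau.mau G, hSmo⟩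
  constructor
  · intro h
    by_contra hcon
    obtain ⟨ρ, ρ', h1, h2⟩ := cex E G Γ Q φ hcon
    exact h2 (h _ _ _ _ ρ ρ' h1)
  · intro hd F _ _ _ M _ _ _ _ _ F' _ _ _ M' _ _ _ _ _ ρ ρ' hconj
    exact Asm.forward hM hG Q hQ hQ' φ hφ hd Γ hΓ ρ ρ' hconj

end Pool.Agent.Results.MP_7614c4_an.FlowsFromLattices
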